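import Pool.Agent.H38.T6.C0.Inv

set_option autoImplicit false
set_option maxRecDepth 100000

namespace Pool.Agent.H38.T6.C0

theorem gram0 : gramChk N0 W0 59 16492674416640 = true := by decide +kernel

theorem aut0 : autChk R 0 N0 P0 24 6871947673600 = true := by decide +kernel

theorem gram1 : gramChk N1 W1 56 15668040695808 = true := by decide +kernel

theorem aut1 : autChk R 1 N1 P1 6 1924145348608 = true := by decide +kernel

theorem gram3 : gramChk N3 W3 55 15393162788864 = true := by decide +kernel

theorem aut3 : autChk R 3 N3 P3 4 1374389534720 = true := by decide +kernel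

theorem gram7 : gramChk N7 W7 44 12369505812480 = true := by decide +kernel

theorem aut7 : autChk R 7 N7 P7 6 1924145348608 = true := by decide +kernel

end Pool.Agent.H38.T6.C0
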